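import Pool.Agent.H28.GS.Targets
import Pool.Agent.H18.GUG.F0G

/-!
# MP_c59857_nt, row F0S: the structure theorem for natural shifts

This is an adaptation of the file of the row F0G: the function of the class and of the block is
subtracted, and the rest is uniform.
-/

set_option autoImplicit false

open Finset Filter Topology

namespace Pool.Agent.H18.GS

open Pool.Agent.H31.DP Pool.Agent.H31.GUF Pool.Agent.H28.GUG Pool.Agent.H35.GUF Pool.Agent.H28.GS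
open Pool.Agent.H18.GUG
open Pool.Agent.H91.LF (lz Bdd Mean sqw)
open Pool.Agent.H24.T2 (Pset box cub)

open Classical in
/-- a single scale -/
theorem not_bad2 {R J : ℕ} {D : ℤ → ℝ} {a₀ : ℤ}
    {b₀ : Fin R → ℤ} {a : Fin J → ℤ} {b : Fin J → Fin R → ℤ} {η : ℝ} {N q : ℕ} (hN : 0 < N)
    (hη : 0 < η) (hq : 0 < q)
    (u : ℕ → ℂ) (hu : ∀ n, u (n + q) = u n) (hu1 : ∀ n, ‖u n‖ ≤ 1) (g W e : ℤ → ℂ)
    (hg : ∀ m, m < 1 → g m = 0) (hW : ∀ n : ℕ, W (n : ℤ) = u n)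
    (hf : ∀ m, ((D m : ℝ) : ℂ) = g m * W m + e m)
    (he : ∀ t ∈ box R N, ∑ n ∈ Finset.Icc (1 : ℤ) N, ‖e (a₀ * n + dot b₀ t)‖ ≤ η / 2 * N)
    (hLI : ∀ (F : Fin J → ℤ → ℂ) (θ : ℝ), (∀ j m, ‖F j m‖ ≤ 1) →
      ∑ t ∈ box R N, ‖∑ n ∈ Finset.Icc (1 : ℤ) N, g (a₀ * n + dot b₀ t) * ee (n * θ) *
        ∏ j, F j (a j * n + dot (b j) t)‖ ≤ η ^ 2 / (8 * q) * (N : ℝ) ^ (R + 1))
    (F : Fin J → ℤ → ℂ) (hF : ∀ j m, ‖F j m‖ ≤ 1) :
    (((box R N).filter (fun t => η * N <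
      ‖∑ n ∈ Finset.Icc (1 : ℤ) N, ((D (a₀ * n + dot b₀ t) : ℝ) : ℂ) *
        ∏ j, F j (a j * n + dot (b j) t)‖)).card : ℝ) ≤ η * (N : ℝ) ^ R := by
  have hNr : (0 : ℝ) < N := by exact_mod_cast hN
  have hqr : (0 : ℝ) < q := by exact_mod_cast hq
  set B := (box R N).filter (fun t => η * N <
      ‖∑ n ∈ Finset.Icc (1 : ℤ) N, ((D (a₀ * n + dot b₀ t) : ℝ) : ℂ) *
        ∏ j, F j (a j * n + dot (b j) t)‖) with hB
  have h1 : ∀ t ∈ B, η / 2 * N ≤ ∑ j ∈ Finset.range q, ‖∑ n ∈ Finset.Icc (1 : ℤ) N,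
      g (a₀ * n + dot b₀ t) * ee (n * (a₀ * ((j : ℝ) / q))) *
        ∏ j, F j (a j * n + dot (b j) t)‖ := by
    intro t ht
    rw [hB, Finset.mem_filter] at ht
    have h2 := weight_le hq u hu hu1 g W hg hW N a₀ (dot b₀ t)
      (fun n => ∏ j, F j (a j * n + dot (b j) t))
    refine le_trans ?_ h2
    have h3 : ∑ n ∈ Finset.Icc (1 : ℤ) N, ((D (a₀ * n + dot b₀ t) : ℝ) : ℂ) *
        ∏ j, F j (a j * n + dot (b j) t) = ∑ n ∈ Finset.Icc (1 : ℤ) N, g (a₀ * n + dot b₀ t) *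
          W (a₀ * n + dot b₀ t) * ∏ j, F j (a j * n + dot (b j) t) +
        ∑ n ∈ Finset.Icc (1 : ℤ) N, e (a₀ * n + dot b₀ t) *
          ∏ j, F j (a j * n + dot (b j) t) := by
      rw [← Finset.sum_add_distrib]
      refine Finset.sum_congr rfl fun n _ => ?_
      rw [hf]
      ring
    have h4 : ‖∑ n ∈ Finset.Icc (1 : ℤ) N, e (a₀ * n + dot b₀ t) *
        ∏ j, F j (a j * n + dot (b j) t)‖ ≤ η / 2 * N := by
      refine (norm_sum_le _ _).trans (le_trans (Finset.sum_le_sum fun n _ => ?_) (he t ht.1))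
      rw [norm_mul, norm_prod]
      exact mul_le_of_le_one_right (norm_nonneg _)
        (Finset.prod_le_one (fun _ _ => norm_nonneg _) fun j _ => hF j _)
    have h5 := ht.2
    rw [h3] at h5
    have h6 := norm_add_le (∑ n ∈ Finset.Icc (1 : ℤ) N, g (a₀ * n + dot b₀ t) *
          W (a₀ * n + dot b₀ t) * ∏ j, F j (a j * n + dot (b j) t))
        (∑ n ∈ Finset.Icc (1 : ℤ) N, e (a₀ * n + dot b₀ t) * ∏ j, F j (a j * n + dot (b j) t))
    linarith
  have h2 : (B.card : ℝ) * (η / 2 * N) ≤ q * (η ^ 2 / (8 * q) * (N : ℝ) ^ (R + 1)) := by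
    calc (B.card : ℝ) * (η / 2 * N) = ∑ _t ∈ B, (η / 2 * (N : ℝ)) := by
          rw [Finset.sum_const, nsmul_eq_mul]
      _ ≤ ∑ t ∈ B, ∑ j ∈ Finset.range q, ‖∑ n ∈ Finset.Icc (1 : ℤ) N,
          g (a₀ * n + dot b₀ t) * ee (n * (a₀ * ((j : ℝ) / q))) *
            ∏ j, F j (a j * n + dot (b j) t)‖ := Finset.sum_le_sum h1
      _ ≤ ∑ t ∈ box R N, ∑ j ∈ Finset.range q, ‖∑ n ∈ Finset.Icc (1 : ℤ) N,
          g (a₀ * n + dot b₀ t) * ee (n * (a₀ * ((j : ℝ) / q))) *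
            ∏ j, F j (a j * n + dot (b j) t)‖ :=
          Finset.sum_le_sum_of_subset_of_nonneg (Finset.filter_subset _ _)
            fun _ _ _ => Finset.sum_nonneg fun _ _ => norm_nonneg _
      _ = ∑ j ∈ Finset.range q, ∑ t ∈ box R N, ‖∑ n ∈ Finset.Icc (1 : ℤ) N,
          g (a₀ * n + dot b₀ t) * ee (n * (a₀ * ((j : ℝ) / q))) *
            ∏ j, F j (a j * n + dot (b j) t)‖ := Finset.sum_comm
      _ ≤ ∑ _j ∈ Finset.range q, η ^ 2 / (8 * q) * (N : ℝ) ^ (R + 1) :=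
          Finset.sum_le_sum fun j _ => hLI F _ hF
      _ = q * (η ^ 2 / (8 * q) * (N : ℝ) ^ (R + 1)) := by
          rw [Finset.sum_const, Finset.card_range, nsmul_eq_mul]
  have h3 : q * (η ^ 2 / (8 * q) * (N : ℝ) ^ (R + 1)) = (η / 4 * (N : ℝ) ^ R) * (η / 2 * N) := by
    field_simp
    ring
  rw [h3] at h2
  have h4 : (B.card : ℝ) ≤ η / 4 * (N : ℝ) ^ R := le_of_mul_le_mul_right h2 (by positivity)
  have h5 : 0 < (N : ℝ) ^ R := by positivity
  nlinarith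

/-- the conditional expectation of the large scale as a function of the class and the block of the
small one, times a periodic weight -/
theorem st_eq (W₁ Q L C N : ℕ) (hC : 0 < C) (hN : 0 < N) (hL : 0 < L) (φ₀ : ℤ → ℤ → ℝ)
    (Wr : ℤ → ℝ) (hWr : ∀ m k : ℤ, Wr (m + Q * k) = Wr m) (m : ℤ) :
    st (W₁ * Q) L N (fun s j => if 0 ≤ j then φ₀ (s % W₁) j * Wr s else 0) m =
      if 0 ≤ m then st W₁ (C * L) (C * N) φ₀ m * Wr m else 0 := by
  have hNz : (0 : ℤ) < N := by exact_mod_cast hN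
  have hLz : (0 : ℤ) < L := by exact_mod_cast hL
  have hCz : (0 : ℤ) < C := by exact_mod_cast hC
  unfold st
  simp only
  have h1 : m % ((W₁ * Q : ℕ) : ℤ) % (W₁ : ℤ) = m % (W₁ : ℤ) := by
    apply Int.emod_emod_of_dvd
    exact ⟨(Q : ℤ), by push_cast; ring⟩
  have h2 : Wr (m % ((W₁ * Q : ℕ) : ℤ)) = Wr m := by
    have h3 : m = m % ((W₁ * Q : ℕ) : ℤ) + (Q : ℤ) * ((W₁ : ℤ) * (m / ((W₁ * Q : ℕ) : ℤ))) := by
      have h4 := Int.emod_add_mul_ediv m ((W₁ * Q : ℕ) : ℤ)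
      have h5 : (((W₁ * Q : ℕ) : ℤ)) * (m / ((W₁ * Q : ℕ) : ℤ)) =
          (Q : ℤ) * ((W₁ : ℤ) * (m / ((W₁ * Q : ℕ) : ℤ))) := by
        push_cast
        ring
      rw [← h5]
      exact h4.symm
    conv_rhs => rw [h3]
    rw [hWr]
  have h3 : ((C * L : ℕ) : ℤ) * m / ((C * N : ℕ) : ℤ) = (L : ℤ) * m / (N : ℤ) := by
    have h4 : ((C * L : ℕ) : ℤ) * m = (C : ℤ) * ((L : ℤ) * m) := by
      push_cast
      ring
    have h5 : ((C * N : ℕ) : ℤ) = (C : ℤ) * (N : ℤ) := by push_cast; ring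
    rw [h4, h5, Int.mul_ediv_mul_of_pos _ _ hCz]
  rw [h1, h2, h3]
  by_cases hm : 0 ≤ m
  · rw [if_pos hm, if_pos (Int.ediv_nonneg (mul_nonneg hLz.le hm) hNz.le)]
  · rw [if_neg hm, if_neg]
    rw [not_le] at hm ⊢
    exact Int.ediv_neg_of_neg_of_pos (mul_neg_of_pos_of_neg hLz hm) hNz

open Classical in
theorem pf_F0S (hSK : T_SKS) (hEN : T_EN) (hLI : G_LI)
    (hMU : Pool.Agent.H31.DP.StatementMU) : T_F0S := by
  intro r h δ R J a₀ b₀ a b η ρ hδ ha₀ hb hη hρ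
  rcases Nat.eq_zero_or_pos r with hr | hr
  · subst hr
    refine ⟨1, one_pos, fun x y hx hxy => ?_⟩
    have h1 : (Finset.Icc x y).filter (fun N : ℕ =>
        ¬ Str False (fun i => (h i : ℤ)) δ a₀ b₀ a b η 1 N) = ∅ := by
      rw [Finset.filter_eq_empty_iff]
      rintro N hN hcon
      rw [Finset.mem_Icc] at hN
      refine hcon ⟨1, 1, fun _ _ => 1, le_rfl, le_rfl, le_rfl, le_rfl, fun _ _ => by simp,
        fun hP => hP.elim, fun F hF => ?_⟩
      have hN0 : (0 : ℝ) < N := by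
        have : 0 < N := by omega
        exact_mod_cast this
      have h2 : (box R N).filter (fun t => η * N <
        ‖∑ n ∈ Finset.Icc (1 : ℤ) N, ((fz (fun i : Fin 0 => (h i : ℤ)) δ (a₀ * n + dot b₀ t) -
          st 1 1 N (fun _ _ => 1) (a₀ * n + dot b₀ t) : ℝ) : ℂ) *
            ∏ j, F j (a j * n + dot (b j) t)‖) = ∅ := by
        rw [Finset.filter_eq_empty_iff]
        intro t _
        rw [not_lt]
        have h3 : ∀ m : ℤ, fz (fun i : Fin 0 => (h i : ℤ)) δ m - st 1 1 N (fun _ _ => 1) m = 0 := by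
          intro m
          simp [fz, st]
        simp only [h3, Complex.ofReal_zero, zero_mul, Finset.sum_const_zero, norm_zero]
        positivity
      rw [h2, Finset.card_empty]
      push_cast
      positivity
    rw [h1, Finset.sum_empty]
    have hx0 : (0 : ℝ) < x := by exact_mod_cast hx
    have h6 : (1 : ℝ) ≤ (y : ℝ) / x := by
      rw [le_div_iff₀ hx0, one_mul]
      have : x ≤ y := by omega
      exact_mod_cast this
    exact mul_nonneg hρ.le (Real.log_nonneg h6)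
  -- the general case
  obtain ⟨l, ⟨e⟩⟩ : ∃ l : ℕ, Nonempty ({i : Fin r // Odd (δ i)} ≃ Fin l) :=
    ⟨_, ⟨Fintype.equivFin _⟩⟩
  have i₀ : Fin r := ⟨0, hr⟩
  set β : Fin r → ℤ := fun i => (h i : ℤ) with hβ
  obtain ⟨h1, hh1⟩ : ∃ h1 : Fin l → ℕ, h1 = fun j => h (e.symm j).1 := ⟨_, rfl⟩
  have hprod : ∀ m : ℤ, ∏ i ∈ Finset.univ.filter (fun i => Odd (δ i)), lz (m + (h i : ℤ)) =
      FF h1 1 m := by
    intro m
    have h0 := Pool.Agent.H22.LF.prod_odd (fun i => Odd (δ i)) e (fun i => lz (m + (h i : ℤ)))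
    unfold FF
    have h2 : ∏ i' : Fin l, lz (m + (h (e.symm i').1 : ℤ)) =
        ∏ i, lz (m + ((1 : ℕ) : ℤ) * ((h1 i : ℕ) : ℤ)) := by
      refine Finset.prod_congr rfl fun j _ => ?_
      rw [hh1]
      simp
    rw [← h2, ← h0]
  have hFF : ∀ m, |FF h1 1 m| ≤ 1 := by
    intro m
    unfold FF
    rw [Finset.abs_prod]
    exact Finset.prod_le_one (fun _ _ => abs_nonneg _) fun _ _ => Pool.Agent.H91.LF.abs_lz_le _
  obtain ⟨C, hC⟩ : ∃ C : ℕ, C = 2 * a₀.natAbs + ∑ i, (b₀ i).natAbs := ⟨_, rfl⟩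
  have ha₀' : 0 < a₀.natAbs := Int.natAbs_pos.2 ha₀
  have hC0 : 0 < C := by omega
  have hCr : (0 : ℝ) < C := by exact_mod_cast hC0
  have hCz : 2 * |a₀| + ∑ i, |b₀ i| = (C : ℤ) := by
    rw [hC]
    push_cast
    rfl
  obtain ⟨w, N₀, hw⟩ := hMU r β δ (η / (8 * C)) hδ (by positivity)
  obtain ⟨q, hq⟩ : ∃ q : ℕ, q = w.factorial ^ 2 := ⟨_, rfl⟩
  have hq0 : 0 < q := by
    rw [hq]
    positivity
  have hq0' : (0 : ℝ) < q := by exact_mod_cast hq0
  obtain ⟨ε, hε, N₂, hLI'⟩ := hLI R J C a₀ b₀ a b (η ^ 2 / (16 * q)) ha₀ hb hCz.le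
    (by positivity)
  obtain ⟨W', J', K1, hW'0, hJ'0, -, hCJ', hSK'⟩ := hSK (J + 2) l h1 ε (ρ / (4 * C)) 1 C
    (by omega) hε (by positivity) one_pos hC0
  obtain ⟨H, hH⟩ : ∃ H : ℕ, H = ∑ i, h i := ⟨_, rfl⟩
  obtain ⟨N₁, hN₁⟩ : ∃ N₁ : ℕ, N₁ = max (max N₀ N₂) ⌈8 * ((H : ℝ) + 1) / η⌉₊ := ⟨_, rfl⟩
  obtain ⟨Wr, hWr⟩ : ∃ Wr : ℤ → ℝ, Wr = fun m => ∏ i, sqw w (m + β i) := ⟨_, rfl⟩
  have hWrb : ∀ m, |Wr m| ≤ 1 := by
    intro m
    rw [hWr]
    simp only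
    rw [Finset.abs_prod]
    exact Finset.prod_le_one (fun _ _ => abs_nonneg _) fun _ _ => Pool.Agent.H22.LF.abs_sqw_le _ _
  have hWrp : ∀ m k : ℤ, Wr (m + q * k) = Wr m := by
    intro m k
    rw [hWr]
    simp only
    refine Finset.prod_congr rfl fun i _ => ?_
    apply Pool.Agent.H22.LF.sqw_congr
    rw [← hq, Int.modEq_iff_dvd]
    exact ⟨-k, by ring⟩
  -- the end of the constants
  obtain ⟨K, hK⟩ : ∃ K : ℕ, K = max (max (K1 * C) (W' * q)) (max J' ⌈Real.exp (2 * N₁ / ρ)⌉₊) :=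
    ⟨_, rfl⟩
  have hKJ : J' ≤ K := by
    rw [hK]
    exact (le_max_left _ _).trans (le_max_right _ _)
  have hKW : W' * q ≤ K := by
    rw [hK]
    exact (le_max_right _ _).trans (le_max_left _ _)
  have hK1C : K1 * C ≤ K := by
    rw [hK]
    exact (le_max_left _ _).trans (le_max_left _ _)
  have hKe : ⌈Real.exp (2 * N₁ / ρ)⌉₊ ≤ K := by
    rw [hK]
    exact (le_max_right _ _).trans (le_max_right _ _)
  -- the scales
  have hscale : ∀ N : ℕ, 0 < N → N₁ ≤ N →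
      (∃ W₁ J₁ : ℕ, 1 ∣ W₁ ∧ W₁ ∣ W' ∧ C ∣ J₁ ∧ J₁ ∣ J' ∧
        UU (J + 2) (C * N) (fun n => ((gs h1 (ce W₁ J₁ (C * N) (FF h1 1)) n : ℝ) : ℂ)) ≤ ε) →
      Str False β δ a₀ b₀ a b η K N := by
    rintro N hN hNN ⟨W₁, J₁, -, hW₁, ⟨L, rfl⟩, hJ₁, hU2⟩
    have hNr : (0 : ℝ) < N := by exact_mod_cast hN
    have hN0 : N₀ ≤ N := (le_max_left _ _).trans ((le_max_left _ _).trans (hN₁ ▸ hNN))
    have hN2 : N₂ ≤ N := (le_max_right _ _).trans ((le_max_left _ _).trans (hN₁ ▸ hNN))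
    have hNH : ((H : ℝ) + 1) ≤ η / 8 * N := by
      have h2 : ⌈8 * ((H : ℝ) + 1) / η⌉₊ ≤ N := (le_max_right _ _).trans (hN₁ ▸ hNN)
      have h3 : 8 * ((H : ℝ) + 1) / η ≤ N := (Nat.le_ceil _).trans (by exact_mod_cast h2)
      rw [div_le_iff₀ hη] at h3
      linarith
    have hW₁0 : 0 < W₁ := Nat.pos_of_dvd_of_pos hW₁ hW'0
    have hCL0 : 0 < C * L := Nat.pos_of_dvd_of_pos hJ₁ hJ'0
    have hL0 : 0 < L := Nat.pos_of_mul_pos_left hCL0
    have hLK : L ≤ K := by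
      have g1 : L ≤ C * L := Nat.le_mul_of_pos_left _ hC0
      have g2 : C * L ≤ J' := Nat.le_of_dvd hJ'0 hJ₁
      omega
    have hqK : W₁ * q ≤ K :=
      (Nat.mul_le_mul_right q (Nat.le_of_dvd hW'0 hW₁)).trans hKW
    obtain ⟨E, hE⟩ : ∃ E : ℤ → ℝ, E = ce W₁ (C * L) (C * N) (FF h1 1) := ⟨_, rfl⟩
    obtain ⟨hE1, ⟨φ₀, hφ₀, hφE⟩, -, -⟩ := hEN W₁ (C * L) (C * N) (FF h1 1) hW₁0 hCL0
      (Nat.mul_pos hC0 hN) hFF
    rw [← hE] at hE1 hφE hU2
    -- the functions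
    obtain ⟨gr, hgr⟩ : ∃ gr : ℤ → ℝ, gr = fun m => if 1 ≤ m then gs h1 E m else 0 := ⟨_, rfl⟩
    obtain ⟨g, hg⟩ : ∃ g : ℤ → ℂ, g = fun m => 2 * ((gr m : ℝ) : ℂ) := ⟨_, rfl⟩
    obtain ⟨W, hW⟩ : ∃ W : ℤ → ℂ, W = fun m => ((Wr m : ℝ) : ℂ) := ⟨_, rfl⟩
    obtain ⟨φ, hφ⟩ : ∃ φ : ℤ → ℤ → ℝ, φ = fun s j => if 0 ≤ j then φ₀ (s % W₁) j * Wr s else 0 :=
      ⟨_, rfl⟩
    obtain ⟨D, hD⟩ : ∃ D : ℤ → ℝ, D = fun m => fz β δ m - st (W₁ * q) L N φ m := ⟨_, rfl⟩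
    obtain ⟨er, her⟩ : ∃ er : ℤ → ℂ, er = fun m => ((D m : ℝ) : ℂ) - g m * W m := ⟨_, rfl⟩
    have hst : ∀ m, st (W₁ * q) L N φ m = if 0 ≤ m then E m * Wr m else 0 := by
      intro m
      rw [hφ, st_eq W₁ q L C N hC0 hN hL0 φ₀ Wr hWrp m, hφE m]
    have hgr0 : ∀ m, m < 1 → gr m = 0 := by
      intro m hm
      rw [hgr]
      simp only
      rw [if_neg (by omega)]
    have hg0 : ∀ m, m < 1 → g m = 0 := by
      intro m hm
      rw [hg]
      simp only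
      rw [hgr0 m hm, Complex.ofReal_zero, mul_zero]
    have hgs : ∀ m, |gs h1 E m| ≤ 1 := by
      intro m
      unfold gs
      have g1 := abs_le.1 (hFF m)
      have g2 := abs_le.1 (hE1 m)
      rw [abs_le]
      constructor <;> linarith [g1.1, g1.2, g2.1, g2.2]
    have hgrb : ∀ m, |gr m| ≤ 1 := by
      intro m
      rw [hgr]
      simp only
      split_ifs with hm
      · exact hgs m
      · simp
    have hu1 : ∀ n : ℕ, W ((n + q : ℕ) : ℤ) = W (n : ℤ) := by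
      intro n
      rw [hW]
      simp only
      congr 1
      have := hWrp n 1
      rw [mul_one] at this
      push_cast
      exact this
    have hWb : ∀ m, ‖W m‖ ≤ 1 := by
      intro m
      rw [hW]
      simp only [Complex.norm_real, Real.norm_eq_abs]
      exact hWrb m
    have hφb : ∀ s j, |φ s j| ≤ 1 := by
      intro s j
      rw [hφ]
      simp only
      split_ifs with hj
      · rw [abs_mul]
        exact mul_le_one₀ (hφ₀ _ _) (abs_nonneg _) (hWrb _)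
      · simp
    have hf : ∀ m, ((D m : ℝ) : ℂ) = g m * W m + er m := by
      intro m
      rw [her]
      ring
    have hern : ∀ m, m < 0 → er m = ((fz β δ m : ℝ) : ℂ) := by
      intro m hm
      rw [her]
      simp only
      rw [hg0 m (by omega), zero_mul, sub_zero, hD]
      simp only
      rw [hst m, if_neg (by omega), sub_zero]
    have herb : ∀ m, m < 1 → ‖er m‖ / 2 ≤ 1 := by
      intro m hm
      rw [her]
      simp only
      rw [hg0 m hm, zero_mul, sub_zero, Complex.norm_real, Real.norm_eq_abs, hD]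
      simp only
      rw [hst m]
      have g1 := abs_le.1 (abs_fz_le β δ m)
      have g2 : |(if 0 ≤ m then E m * Wr m else 0 : ℝ)| ≤ 1 := by
        split_ifs with hj
        · rw [abs_mul]
          exact mul_le_one₀ (hE1 _) (abs_nonneg _) (hWrb _)
        · simp
      have g3 := abs_sub (fz β δ m) (if 0 ≤ m then E m * Wr m else 0 : ℝ)
      have g4 := abs_fz_le β δ m
      linarith
    have her1 : ∀ n : ℕ, 1 ≤ n → ‖er (n : ℤ)‖ =
        |fm β δ n - (∏ i ∈ Finset.univ.filter (fun i => Odd (δ i)),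
          lz ((n : ℤ) + β i)) * ∏ i, sqw w ((n : ℤ) + β i)| := by
      intro n hn
      have h2 : er (n : ℤ) = ((fm β δ n - (∏ i ∈ Finset.univ.filter (fun i => Odd (δ i)),
          lz ((n : ℤ) + β i)) * ∏ i, sqw w ((n : ℤ) + β i) : ℝ) : ℂ) := by
        rw [her]
        simp only
        rw [hg, hW, hD]
        simp only
        rw [hst, if_pos (by omega : (0 : ℤ) ≤ (n : ℤ)), hgr]
        simp only
        rw [if_pos (by omega : (1 : ℤ) ≤ (n : ℤ))]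
        have h3 : ∏ i ∈ Finset.univ.filter (fun i => Odd (δ i)), lz ((n : ℤ) + β i) =
            FF h1 1 n := hprod n
        rw [h3]
        have h4 : ∏ i, sqw w ((n : ℤ) + β i) = Wr n := by rw [hWr]
        rw [h4]
        unfold gs fz fm
        push_cast
        ring
      rw [h2, Complex.norm_real, Real.norm_eq_abs]
    have hUg3 : UU (J + 2) (C * N) (fun n => ((gr n : ℝ) : ℂ)) ≤ ε := by
      rw [UU_congr (J + 2) (C * N) (fun n => ((gr n : ℝ) : ℂ))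
        (fun n => ((gs h1 E n : ℝ) : ℂ)) (by
          intro m hm
          rw [hgr]
          simp only
          rw [if_pos hm])]
      exact hU2
    refine ⟨W₁ * q, L, φ, Nat.mul_pos hW₁0 hq0, hqK, hL0, hLK, hφb, fun hP => hP.elim,
      fun F hF => ?_⟩
    have hmain := not_bad2 (D := D) (a₀ := a₀) (b₀ := b₀) (a := a) (b := b) hN hη hq0
      (fun n => W (n : ℤ)) hu1 (fun n => hWb _) g W er hg0 (fun _ => rfl) hf ?_ ?_ F hF
    · rw [hD] at hmain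
      exact hmain
    · intro t ht
      have hd := dot_le b₀ t ht
      have hE : ∑ n ∈ Finset.Icc 1 (C * N), ‖er (n : ℤ)‖ / 2 ≤ η / 16 * N := by
        have h2 := hw (C * N) (hN0.trans (Nat.le_mul_of_pos_left _ hC0))
        have h3 : ∑ n ∈ Finset.Icc 1 (C * N), ‖er (n : ℤ)‖ / 2 =
            (∑ n ∈ Finset.Icc 1 (C * N), |fm β δ n -
              (∏ i ∈ Finset.univ.filter (fun i => Odd (δ i)), lz ((n : ℤ) + β i)) *
                ∏ i, sqw w ((n : ℤ) + β i)|) / 2 := by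
          rw [Finset.sum_div]
          exact Finset.sum_congr rfl fun n hn => by rw [her1 n (Finset.mem_Icc.1 hn).1]
        rw [h3]
        have h4 : η / (8 * C) * ((C * N : ℕ) : ℝ) = η / 8 * N := by
          push_cast
          field_simp
        rw [h4] at h2
        linarith
      have h4 := error_le C N (H + 1) a₀ (dot b₀ t) ha₀ (fun m => ‖er m‖ / 2) (η / 16 * N)
        (fun _ => by positivity)
        (by
          have h5 : ((C * N : ℕ) : ℤ) = (2 * |a₀| + ∑ i, |b₀ i|) * N := by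
            rw [hCz]
            push_cast
            ring
          rw [h5]
          have h6 : (2 * |a₀| + ∑ i, |b₀ i|) * (N : ℤ) =
            |a₀| * N + |a₀| * N + (∑ i, |b₀ i|) * N := by ring
          rw [h6]
          have h7 : 0 ≤ |a₀| * (N : ℤ) := by positivity
          linarith)
        herb
        (by
          intro m hm
          have hm2 : m < 0 := by
            push_cast at hm
            omega
          have hm3 : m ≤ -((∑ i, h i : ℕ) : ℤ) := by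
            rw [← hH]
            push_cast at hm
            omega
          rw [hern m hm2, hβ, fz_eq_zero h δ hδ i₀ m hm3]
          simp)
        hE
      have h5 : ∑ n ∈ Finset.Icc (1 : ℤ) N, ‖er (a₀ * n + dot b₀ t)‖ =
          2 * ∑ n ∈ Finset.Icc (1 : ℤ) N, ‖er (a₀ * n + dot b₀ t)‖ / 2 := by
        rw [Finset.mul_sum]
        exact Finset.sum_congr rfl fun n _ => by ring
      rw [h5]
      push_cast at h4
      have : 0 ≤ η * N := by positivity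
      linarith
    · intro F θ hF
      have h8 := hLI' N hN2 gr hgrb hgr0 hUg3 F θ hF
      have h9 : ∀ t ∈ box R N, ‖∑ n ∈ Finset.Icc (1 : ℤ) N, g (a₀ * n + dot b₀ t) * ee (n * θ) *
          ∏ j, F j (a j * n + dot (b j) t)‖ =
          2 * ‖∑ n ∈ Finset.Icc (1 : ℤ) N, ((gr (a₀ * n + dot b₀ t) : ℝ) : ℂ) * ee (n * θ) *
          ∏ j, F j (a j * n + dot (b j) t)‖ := by
        intro t _
        rw [hg]
        simp only
        have h10 : ∑ n ∈ Finset.Icc (1 : ℤ) N, 2 * ((gr (a₀ * n + dot b₀ t) : ℝ) : ℂ) *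
            ee (n * θ) * ∏ j, F j (a j * n + dot (b j) t) =
            2 * ∑ n ∈ Finset.Icc (1 : ℤ) N, ((gr (a₀ * n + dot b₀ t) : ℝ) : ℂ) * ee (n * θ) *
              ∏ j, F j (a j * n + dot (b j) t) := by
          rw [Finset.mul_sum]
          exact Finset.sum_congr rfl fun n _ => by ring
        rw [h10, norm_mul]
        simp
      rw [Finset.sum_congr rfl h9, ← Finset.mul_sum]
      have h11 : η ^ 2 / (8 * q) * (N : ℝ) ^ (R + 1) =
          2 * (η ^ 2 / (16 * q) * (N : ℝ) ^ (R + 1)) := by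
        field_simp
        ring
      rw [h11]
      exact mul_le_mul_of_nonneg_left h8 (by norm_num)
  -- the end
  refine ⟨K, lt_of_lt_of_le hJ'0 hKJ, fun x y hx hxy => ?_⟩
  have hx0 : (0 : ℝ) < x := by exact_mod_cast hx
  have hxy1 : K1 * x ≤ y :=
    (Nat.mul_le_mul_right x ((Nat.le_mul_of_pos_right _ hC0).trans hK1C)).trans hxy
  have hlog : (N₁ : ℝ) ≤ ρ / 2 * Real.log ((y : ℝ) / x) := by
    have g1 : ⌈Real.exp (2 * N₁ / ρ)⌉₊ * x ≤ y := (Nat.mul_le_mul_right x hKe).trans hxy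
    have g2 : ((⌈Real.exp (2 * N₁ / ρ)⌉₊ : ℕ) : ℝ) * x ≤ y := by exact_mod_cast g1
    have g3 : Real.exp (2 * N₁ / ρ) ≤ (y : ℝ) / x := by
      rw [le_div_iff₀ hx0]
      exact (mul_le_mul_of_nonneg_right (Nat.le_ceil _) hx0.le).trans g2
    have g4 : 2 * (N₁ : ℝ) / ρ ≤ Real.log ((y : ℝ) / x) := by
      rw [Real.le_log_iff_exp_le (lt_of_lt_of_le (Real.exp_pos _) g3)]
      exact g3
    rw [div_le_iff₀ hρ] at g4
    linarith
  have hlog0 : 0 ≤ Real.log ((y : ℝ) / x) := by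
    have g1 : 0 ≤ ρ / 2 * Real.log ((y : ℝ) / x) := (Nat.cast_nonneg _).trans hlog
    exact nonneg_of_mul_nonneg_right g1 (by positivity)
  set S := (Finset.Icc x y).filter (fun N : ℕ => ¬ Str False β δ a₀ b₀ a b η K N) with hS
  set B2 := (Finset.Icc x y).filter (fun N : ℕ => ¬ ∃ W₁ J₁ : ℕ, 1 ∣ W₁ ∧ W₁ ∣ W' ∧ C ∣ J₁ ∧
    J₁ ∣ J' ∧ UU (J + 2) (C * N) (fun n => ((gs h1 (ce W₁ J₁ (C * N) (FF h1 1)) n : ℝ) : ℂ)) ≤ ε)
    with hB2
  have hsub : S ⊆ Finset.Ico 1 (N₁ + 1) ∪ B2 := by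
    intro N hN
    rw [hS, Finset.mem_filter, Finset.mem_Icc] at hN
    obtain ⟨⟨hxN, hNy⟩, hbad⟩ := hN
    rw [Finset.mem_union, Finset.mem_Ico]
    by_cases hNN : N < N₁ + 1
    · exact Or.inl ⟨by omega, hNN⟩
    · right
      rw [not_lt] at hNN
      have hN0 : 0 < N := by omega
      rw [hB2, Finset.mem_filter, Finset.mem_Icc]
      exact ⟨⟨hxN, hNy⟩, fun hcon => hbad (hscale N hN0 (by omega) hcon)⟩
  have a1 : ∑ N ∈ S, (1 / (N : ℝ)) ≤
      ∑ N ∈ Finset.Ico 1 (N₁ + 1), (1 / (N : ℝ)) + ∑ N ∈ B2, (1 / (N : ℝ)) := by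
    refine (Finset.sum_le_sum_of_subset_of_nonneg hsub fun _ _ _ => by positivity).trans ?_
    have u1 : ∀ A A' : Finset ℕ, ∑ N ∈ A ∪ A', (1 / (N : ℝ)) ≤
        ∑ N ∈ A, (1 / (N : ℝ)) + ∑ N ∈ A', (1 / (N : ℝ)) := by
      intro A A'
      rw [← Finset.sum_union_inter]
      exact le_add_of_nonneg_right (Finset.sum_nonneg fun _ _ => by positivity)
    exact u1 _ _
  have a2 : ∑ N ∈ Finset.Ico 1 (N₁ + 1), (1 / (N : ℝ)) ≤ N₁ := by
    have h3 : ∑ N ∈ Finset.Ico 1 (N₁ + 1), (1 / (N : ℝ)) ≤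
        ∑ N ∈ Finset.Ico 1 (N₁ + 1), (1 : ℝ) := by
      refine Finset.sum_le_sum fun N hN => ?_
      rw [Finset.mem_Ico] at hN
      have h4 : (1 : ℝ) ≤ N := by exact_mod_cast hN.1
      rw [div_le_one (by linarith)]
      exact h4
    simpa using h3
  have a4 : ∑ N ∈ B2, (1 / (N : ℝ)) ≤ C * (ρ / (4 * C) * Real.log ((y : ℝ) / x)) := by
    have h5 := sum_dil x y C hC0 (fun M => ¬ ∃ W₁ J₁ : ℕ, 1 ∣ W₁ ∧ W₁ ∣ W' ∧ C ∣ J₁ ∧
      J₁ ∣ J' ∧ UU (J + 2) M (fun n => ((gs h1 (ce W₁ J₁ M (FF h1 1)) n : ℝ) : ℂ)) ≤ ε)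
    refine h5.trans (mul_le_mul_of_nonneg_left ?_ hCr.le)
    have h6 := hSK' (C * x) (C * y) (Nat.mul_pos hC0 hx) (dil_bd C hxy1)
    have h7 : (((C * y : ℕ) : ℝ)) / ((C * x : ℕ) : ℝ) = (y : ℝ) / x := by
      push_cast
      rw [mul_div_mul_left _ _ hCr.ne']
    rw [h7] at h6
    exact h6
  have a6 : C * (ρ / (4 * C) * Real.log ((y : ℝ) / x)) = ρ / 4 * Real.log ((y : ℝ) / x) := by
    field_simp
  rw [a6] at a4
  have a7 : 0 ≤ ρ * Real.log ((y : ℝ) / x) := mul_nonneg hρ.le hlog0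
  linarith

end Pool.Agent.H18.GS
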